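import Mathlib

/-!
# There is no uniform bound on the number of irreducible components of a numerical semigroup
-/

set_option autoImplicit false

namespace Pool.Agent.Results.MP_b58a5b_nt.NoUniformBound

/-- a numerical semigroup: it contains `0`, is closed under addition and has finite complement -/
structure IsNumericalSemigroup (S : Set ℕ) : Prop where
  zero_mem : 0 ∈ S
  add_mem : ∀ x ∈ S, ∀ y ∈ S, x + y ∈ S
  finite_compl : (Sᶜ).Finite

/-- an irreducible numerical semigroup: it is not the intersection of two numerical semigroups that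
contain it properly -/
def IsIrreducible (S : Set ℕ) : Prop :=
  IsNumericalSemigroup S ∧
    ¬ ∃ S₁ S₂ : Set ℕ, IsNumericalSemigroup S₁ ∧ IsNumericalSemigroup S₂ ∧ S ⊂ S₁ ∧ S ⊂ S₂ ∧
      S = S₁ ∩ S₂

/-- The symmetry of irreducible numerical semigroups above half of the Frobenius number. -/
lemma symm_of_irreducible {T : Set ℕ} (hT : IsIrreducible T) {F : ℕ} (hF : F ∉ T)
    (hmax : ∀ x, F < x → x ∈ T) {x : ℕ} (hx : x ∉ T) (hxF : F < 2 * x) : F - x ∈ T := by
  classical
  by_contra hcon
  obtain ⟨hT1, hT2⟩ := hT
  have hxle : x ≤ F := by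
    by_contra h
    exact hx (hmax x (not_le.mp h))
  set P : ℕ → Prop := fun y => y ∉ T ∧ F < 2 * y ∧ y ≤ F ∧ F - y ∉ T with hP
  have hPx : P x := ⟨hx, hxF, hxle, hcon⟩
  obtain ⟨h, hh1, hh2⟩ : ∃ h, P h ∧ ∀ y, P y → y ≤ h := by
    have hfin : {y | P y}.Finite := (Set.finite_Iic F).subset fun y hy => hy.2.2.1
    obtain ⟨h, hh, hmx⟩ := hfin.toFinset.exists_max_image id ⟨x, by simpa using hPx⟩
    refine ⟨h, by simpa using hh, fun y hy => hmx y (by simpa using hy)⟩
  obtain ⟨hh1, hhF, hhle, hhc⟩ := hh1
  have h0F : F ≠ 0 := by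
    rintro rfl
    exact hF hT1.zero_mem
  have hneF : h ≠ F := by
    rintro rfl
    simp at hhc
    exact hhc hT1.zero_mem
  apply hT2
  refine ⟨insert h T, insert F T, ?_, ?_, ?_, ?_, ?_⟩
  · refine ⟨Set.mem_insert_of_mem _ hT1.zero_mem, ?_, ?_⟩
    · have key : ∀ t ∈ T, h + t ∈ insert h T := by
        intro t ht
        rcases Nat.eq_zero_or_pos t with h0 | h0
        · subst h0
          exact Set.mem_insert _ _
        · right
          by_contra hnot
          have hle : h + t ≤ F := by
            by_contra hlt
            exact hnot (hmax _ (not_le.mp hlt))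
          have hnP : ¬ P (h + t) := by
            intro hp
            have := hh2 _ hp
            omega
          have hmem : F - (h + t) ∈ T := by
            by_contra hm
            exact hnP ⟨hnot, by omega, hle, hm⟩
          have hsum := hT1.add_mem _ hmem _ ht
          have e : F - (h + t) + t = F - h := by omega
          rw [e] at hsum
          exact hhc hsum
      rintro y (rfl | hy) z (rfl | hz)
      · right
        exact hmax _ (by omega)
      · exact key z hz
      · rw [add_comm]
        exact key y hy
      · exact Set.mem_insert_of_mem _ (hT1.add_mem _ hy _ hz)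
    · exact hT1.finite_compl.subset (Set.compl_subset_compl.mpr (Set.subset_insert _ _))
  · refine ⟨Set.mem_insert_of_mem _ hT1.zero_mem, ?_, ?_⟩
    · have key : ∀ t ∈ T, F + t ∈ insert F T := by
        intro t ht
        rcases Nat.eq_zero_or_pos t with h0 | h0
        · subst h0
          exact Set.mem_insert _ _
        · right
          exact hmax _ (by omega)
      rintro y (rfl | hy) z (rfl | hz)
      · right
        exact hmax _ (by omega)
      · exact key z hz
      · rw [add_comm]
        exact key y hy
      · exact Set.mem_insert_of_mem _ (hT1.add_mem _ hy _ hz)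
    · exact hT1.finite_compl.subset (Set.compl_subset_compl.mpr (Set.subset_insert _ _))
  · exact Set.ssubset_insert hh1
  · exact Set.ssubset_insert hF
  · ext y
    constructor
    · intro hy
      exact ⟨Set.mem_insert_of_mem _ hy, Set.mem_insert_of_mem _ hy⟩
    · rintro ⟨hy1, hy2⟩
      rcases hy1 with rfl | hy1
      · rcases hy2 with h2 | h2
        · exact absurd h2 hneF
        · exact h2
      · exact hy1

/-- the multiples of an element -/
lemma mul_mem_of_mem {T : Set ℕ} (hT : IsNumericalSemigroup T) {a : ℕ} (ha : a ∈ T) (n : ℕ) :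
    n * a ∈ T := by
  induction n with
  | zero => simpa using hT.zero_mem
  | succ n ih =>
    rw [Nat.succ_mul]
    exact hT.add_mem _ ih _ ha

/-- a large multiple of `gcd a b` is a nonnegative combination of `a` and `b` -/
lemma mem_of_gcd_dvd {T : Set ℕ} (hT : IsNumericalSemigroup T) {a b F : ℕ} (ha : a ∈ T)
    (hb : b ∈ T) (hd : Nat.gcd a b ∣ F) (hF : a * b < F) : F ∈ T := by
  rcases Nat.eq_zero_or_pos a with rfl | hapos
  · rw [Nat.gcd_zero_left] at hd
    obtain ⟨c, rfl⟩ := hd
    rw [mul_comm]
    exact mul_mem_of_mem hT hb c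
  rcases Nat.eq_zero_or_pos b with rfl | hbpos
  · rw [Nat.gcd_zero_right] at hd
    obtain ⟨c, rfl⟩ := hd
    rw [mul_comm]
    exact mul_mem_of_mem hT ha c
  obtain ⟨c, hc⟩ := hd
  -- F = x a + y b over the integers, reduce x modulo b
  have hbez := Nat.gcd_eq_gcd_ab a b
  set x : ℤ := (Nat.gcdA a b * c) % b with hx
  have hb0 : (0 : ℤ) < b := by exact_mod_cast hbpos
  have ha0 : (0 : ℤ) < a := by exact_mod_cast hapos
  have hx0 : 0 ≤ x := Int.emod_nonneg _ hb0.ne'
  have hxb : x < b := Int.emod_lt_of_pos _ hb0
  set y : ℤ := Nat.gcdB a b * c + a * ((Nat.gcdA a b * c) / b) with hy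
  have hsum : (F : ℤ) = x * a + y * b := by
    have h1 := Int.emod_add_mul_ediv (Nat.gcdA a b * c) (b : ℤ)
    have h2 : (F : ℤ) = (a * Nat.gcdA a b + b * Nat.gcdB a b) * c := by
      rw [← hbez]
      exact_mod_cast hc
    rw [hy, h2]
    have h3 : x = Nat.gcdA a b * c - b * ((Nat.gcdA a b * c) / b) := by linarith
    rw [h3]
    ring
  have hF' : (a * b : ℤ) < F := by exact_mod_cast hF
  have hy0 : 0 ≤ y := by
    by_contra hneg
    have h1 : y * b ≤ 0 := mul_nonpos_of_nonpos_of_nonneg (by omega) hb0.le
    have h2 : x * a ≤ b * a := mul_le_mul_of_nonneg_right hxb.le ha0.le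
    have h3 : (b : ℤ) * a = a * b := mul_comm _ _
    linarith
  lift x to ℕ using hx0 with x'
  lift y to ℕ using hy0 with y'
  have hsum' : F = x' * a + y' * b := by exact_mod_cast hsum
  rw [hsum']
  exact hT.add_mem _ (mul_mem_of_mem hT ha _) _ (mul_mem_of_mem hT hb _)

/-- arbitrarily large finite sets in which all differences divide the elements -/
lemma exists_set (n : ℕ) : ∃ X : Finset ℕ, X.card = n ∧ (∀ x ∈ X, 0 < x) ∧
    ∀ x ∈ X, ∀ y ∈ X, y < x → (x - y) ∣ y := by
  classical
  induction n with
  | zero => exact ⟨∅, by simp⟩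
  | succ n ih =>
    obtain ⟨X, hcard, hpos, hdiv⟩ := ih
    set P : ℕ := (∏ x ∈ X, x) * ∏ x ∈ X, ∏ y ∈ X, (if y < x then x - y else 1) with hP
    have hPpos : 0 < P := by
      refine Nat.mul_pos (Finset.prod_pos hpos) (Finset.prod_pos fun x _ => Finset.prod_pos
        fun y _ => ?_)
      split_ifs with h
      · omega
      · exact one_pos
    have hxP : ∀ x ∈ X, x ∣ P := fun x hx =>
      (Finset.dvd_prod_of_mem (fun x => x) hx).trans (Dvd.intro _ rfl)
    have hdP : ∀ x ∈ X, ∀ y ∈ X, y < x → (x - y) ∣ P := by
      intro x hx y hy hlt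
      have h1 : (x - y) ∣ ∏ y ∈ X, (if y < x then x - y else 1) := by
        have := Finset.dvd_prod_of_mem (fun y => if y < x then x - y else 1) hy
        simpa [hlt] using this
      have h2 : (∏ y ∈ X, (if y < x then x - y else 1)) ∣
          ∏ x ∈ X, ∏ y ∈ X, (if y < x then x - y else 1) :=
        Finset.dvd_prod_of_mem (fun x => ∏ y ∈ X, (if y < x then x - y else 1)) hx
      exact (h1.trans h2).trans (Dvd.intro_left _ rfl)
    refine ⟨insert P (X.map ⟨fun x => P + x, fun x y h => by simpa using h⟩), ?_, ?_, ?_⟩
    · rw [Finset.card_insert_of_notMem, Finset.card_map, hcard]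
      intro hmem
      rw [Finset.mem_map] at hmem
      obtain ⟨x, hx, hxe⟩ := hmem
      have h1 := hpos x hx
      have h2 : P + x = P := hxe
      omega
    · intro x hx
      rw [Finset.mem_insert, Finset.mem_map] at hx
      rcases hx with rfl | ⟨z, hz, rfl⟩
      · exact hPpos
      · show 0 < P + z
        omega
    · intro x hx y hy hlt
      rw [Finset.mem_insert, Finset.mem_map] at hx hy
      rcases hx with rfl | ⟨z, hz, rfl⟩
      · rcases hy with rfl | ⟨w, hw, rfl⟩
        · exact absurd hlt (lt_irrefl _)
        · exfalso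
          have : P + w < P := hlt
          omega
      · rcases hy with rfl | ⟨w, hw, rfl⟩
        · have e : (P + z) - P = z := by omega
          show (P + z) - P ∣ P
          rw [e]
          exact hxP z hz
        · have hlt' : P + w < P + z := hlt
          have hwz : w < z := by omega
          have e : (P + z) - (P + w) = z - w := by omega
          show (P + z) - (P + w) ∣ P + w
          rw [e]
          exact dvd_add (hdP z hz w hw hwz) (hdiv z hz w hw hwz)

/-- For every `N` there is a numerical semigroup which is not the intersection of `N` or fewer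
irreducible numerical semigroups. -/
theorem result (N : ℕ) : ∃ S : Set ℕ, IsNumericalSemigroup S ∧
    ∀ k ≤ N, ∀ T : Fin k → Set ℕ, (∀ i, IsIrreducible (T i)) → S ≠ ⋂ i, T i := by
  classical
  obtain ⟨X, hcard, hpos, hdiv⟩ := exists_set (N + 1)
  -- an upper bound of X
  obtain ⟨L, hL⟩ : ∃ L : ℕ, ∀ x ∈ X, x ≤ L := ⟨X.sup id, fun x hx => Finset.le_sup (f := id) hx⟩
  set m : ℕ := (∏ x ∈ X, x) * (L * L + 2 * L + 1) with hm
  have hprodpos : 0 < ∏ x ∈ X, x := Finset.prod_pos hpos
  have hmL : L * L + 2 * L + 1 ≤ m := by
    rw [hm]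
    exact Nat.le_mul_of_pos_left _ hprodpos
  have hxm : ∀ x ∈ X, x ∣ m := fun x hx =>
    (Finset.dvd_prod_of_mem (fun x => x) hx).trans (Dvd.intro _ rfl)
  refine ⟨{x | x = 0 ∨ m ≤ x}, ⟨Or.inl rfl, ?_, ?_⟩, ?_⟩
  · rintro x (rfl | hx) y (rfl | hy)
    · left; rfl
    · right; omega
    · right; omega
    · right; omega
  · refine (Set.finite_Iio m).subset fun x hx => ?_
    by_contra h
    exact hx (Or.inr (not_lt.mp h))
  · intro k hk T hT hS
    -- every m - x is missing from some T i
    have hmiss : ∀ x ∈ X, ∃ i, m - x ∉ T i := by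
      intro x hx
      by_contra hcon
      push Not at hcon
      have h1 : m - x ∈ ⋂ i, T i := Set.mem_iInter.mpr hcon
      rw [← hS] at h1
      have h2 := hpos x hx
      have h3 := hL x hx
      rcases h1 with h1 | h1
      · have : L * L + 2 * L + 1 ≤ x := by omega
        nlinarith
      · omega
    have hne : Nonempty (Fin k) := by
      obtain ⟨x, hx⟩ : X.Nonempty := by
        rw [← Finset.card_pos, hcard]
        exact Nat.succ_pos _
      obtain ⟨i, -⟩ := hmiss x hx
      exact ⟨i⟩
    choose! f hf using hmiss
    obtain ⟨x, hx, y, hy, hne, hfxy⟩ : ∃ x ∈ X, ∃ y ∈ X, x ≠ y ∧ f x = f y := by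
      have hc : (Finset.univ : Finset (Fin k)).card < X.card := by
        rw [hcard, Finset.card_univ, Fintype.card_fin]
        omega
      exact Finset.exists_ne_map_eq_of_card_lt_of_maps_to hc fun a _ => Finset.mem_univ _
    -- symmetric treatment
    have main : ∀ x ∈ X, ∀ y ∈ X, y < x → f x = f y → False := by
      intro x hx y hy hlt hfxy
      set T' := T (f x) with hT'
      have hmx : m - x ∉ T' := hf x hx
      have hmy : m - y ∉ T' := by
        have := hf y hy
        rwa [← hfxy] at this
      have hirr : IsIrreducible T' := hT _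
      have hsub : ∀ z, m ≤ z → z ∈ T' := by
        intro z hz
        have : z ∈ ⋂ i, T i := by
          rw [← hS]
          exact Or.inr hz
        exact Set.mem_iInter.mp this _
      -- the Frobenius number
      obtain ⟨F, hF1, hF2⟩ : ∃ F, F ∉ T' ∧ ∀ z, F < z → z ∈ T' := by
        have hfin := hirr.1.finite_compl
        obtain ⟨F, hF, hmxx⟩ := hfin.toFinset.exists_max_image id ⟨m - x, by simpa using hmx⟩
        refine ⟨F, by simpa using hF, fun z hz => ?_⟩
        by_contra hzn
        have := hmxx z (by simpa using hzn)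
        simp at this
        omega
      have hFm : F < m := by
        by_contra h
        exact hF1 (hsub F (not_lt.mp h))
      have hxL := hL x hx
      have hyL := hL y hy
      have hxF : m - x ≤ F := by
        by_contra h
        exact hmx (hF2 _ (not_le.mp h))
      have hyF : m - y ≤ F := by
        by_contra h
        exact hmy (hF2 _ (not_le.mp h))
      have ha : F - (m - x) ∈ T' := symm_of_irreducible hirr hF1 hF2 hmx (by omega)
      have hb : F - (m - y) ∈ T' := symm_of_irreducible hirr hF1 hF2 hmy (by omega)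
      set a := F - (m - x) with hadef
      set b := F - (m - y) with hbdef
      have hab : a - b = x - y := by omega
      have hba : b ≤ a := by omega
      have hd1 : Nat.gcd a b ∣ x - y := by
        rw [← hab]
        exact Nat.dvd_sub (Nat.gcd_dvd_left _ _) (Nat.gcd_dvd_right _ _)
      have hd2 : Nat.gcd a b ∣ y := hd1.trans (hdiv x hx y hy hlt)
      have hd3 : Nat.gcd a b ∣ m := hd2.trans (hxm y hy)
      have hd4 : Nat.gcd a b ∣ F := by
        have e : F + y = b + m := by omega
        have h1 : Nat.gcd a b ∣ F + y := by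
          rw [e]
          exact dvd_add (Nat.gcd_dvd_right _ _) hd3
        exact (Nat.dvd_add_left hd2).mp h1
      have haL : a ≤ L := by omega
      have hbL : b ≤ L := by omega
      have hlarge : a * b < F := by
        have : a * b ≤ L * L := Nat.mul_le_mul haL hbL
        omega
      exact hF1 (mem_of_gcd_dvd hirr.1 ha hb hd4 hlarge)
    rcases lt_or_gt_of_ne hne with h | h
    · exact main y hy x hx h hfxy.symm
    · exact main x hx y hy h hfxy

end Pool.Agent.Results.MP_b58a5b_nt.NoUniformBound
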